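import Pool.Agent.H.MP_58728c_al.A

set_option autoImplicit false

namespace Pool.Agent.H.MP_7ab5f9_al

open Function Pool.Agent.H.MP_4f47f1_al Pool.Agent.H.MP_58728c_al

lemma wqo {G U : Type} [Finite G] [Finite U] (n : ℕ → ℕ) (ω : ∀ j, Fin (n j) → G) (u : ℕ → U) :
    ∃ i, ∀ b, ∃ j, b ≤ j ∧ u i = u j ∧ ∃ (s : Fin (n j) → Fin (n i)) (t : Fin (n i) → Fin (n j)),
      StrictMono t ∧ (∀ a, s (t a) = a) ∧ (∀ a, t (s a) ≤ a) ∧ ω j = ω i ∘ s := by
  classical
  have h1 : WellQuasiOrdered (List.Sublist (α := G × Prop)) := fun f => by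
    obtain ⟨m, k, h, h'⟩ := Set.PartiallyWellOrderedOn.partiallyWellOrderedOn_sublistForall₂
      (α := G × Prop) Eq (s := Set.univ) Set.finite_univ.partiallyWellOrderedOn
      fun i => ⟨f i, fun _ _ => trivial⟩
    obtain ⟨l, a, b⟩ := List.sublistForall₂_iff.1 h'
    rw [List.forall₂_eq_eq_eq] at a
    exact ⟨m, k, h, (show f m = l from a) ▸ b⟩
  have : IsPreorder (List (G × Prop)) List.Sublist :=
    { refl := List.Sublist.refl, trans := fun _ _ _ => List.Sublist.trans }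
  have h2 := h1.prod (Finite.wellQuasiOrdered (α := U × Set G) Eq)
  have : IsPreorder (List (G × Prop) × U × Set G) fun a b => a.1.Sublist b.1 ∧ a.2 = b.2 :=
    { refl := fun a => ⟨List.Sublist.refl _, rfl⟩
      trans := fun _ _ _ a b => ⟨a.1.trans b.1, a.2.trans b.2⟩ }
  obtain ⟨g, hg⟩ := h2.exists_monotone_subseq fun j =>
    (List.ofFn fun a => (ω j a, ∀ a', ω j a' = ω j a → a ≤ a'), u j, Set.range (ω j))
  refine ⟨g 0, fun b => ?_⟩
  obtain ⟨c1, c2⟩ := hg 0 b b.zero_le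
  obtain ⟨c2, c3⟩ := Prod.mk.inj c2
  obtain ⟨f, hf⟩ := List.sublist_iff_exists_fin_orderEmbedding_get_eq.1 c1
  let t : Fin (n (g 0)) → Fin (n (g b)) := fun a =>
    (f (a.cast (by simp))).cast (by simp)
  have t1 : StrictMono t := fun a a' h => f.strictMono (show a.cast _ < a'.cast _ from h)
  have t2 : ∀ a, (ω _ a, ∀ a', ω _ a' = ω _ a → a ≤ a') =
      (ω _ (t a), ∀ a', ω _ a' = ω _ (t a) → t a ≤ a') := fun a => by
    have := hf (a.cast (by simp))
    simp only [List.get_ofFn] at this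
    exact this
  have key : ∀ k, ∃ a, ω _ a = ω _ k ∧ t a ≤ k ∧ ∀ a', t a' = k → a = a' := fun k => by
    by_cases hk : ∃ a, t a = k
    · obtain ⟨a, rfl⟩ := hk
      exact ⟨a, (Prod.mk.inj (t2 a)).1, le_rfl, fun a' h => (t1.injective h).symm⟩
    · obtain ⟨a, ha, hmin⟩ := (wellFounded_lt (α := Fin (n (g 0)))).has_min
        {a | ω _ a = ω _ k} (c3 ▸ ⟨k, rfl⟩ : ω _ k ∈ Set.range (ω (g 0)))
      obtain ⟨e1, e2⟩ := Prod.mk.inj (t2 a)
      refine ⟨a, ha, ?_, fun a' h => (hk ⟨a', h⟩).elim⟩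
      exact (e2 ▸ fun a' h => not_lt.1 (hmin a' (h.trans ha)) :
        ∀ a', ω _ a' = ω _ (t a) → t a ≤ a') k (ha.symm.trans e1)
  choose s s1 s2 s3 using key
  exact ⟨g b, g.strictMono.le_apply, c2, s, t, t1, fun a => s3 _ a rfl, s2, funext fun k => (s1 k).symm⟩

variable (G : Type) [Group G]

def ph (n : ℕ) : FreeGroup (Fin n) →* ((Fin n → G) → G) := FreeGroup.lift fun i ω => ω i

abbrev FF (n : ℕ) := (ph G n).range

def pre {m n : ℕ} (s : Fin m → Fin n) : ((Fin m → G) → G) →* ((Fin n → G) → G) :=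
  MonoidHom.mk' (fun f ω => f (ω ∘ s)) fun _ _ => rfl

lemma pre_ph {m n : ℕ} (s : Fin m → Fin n) (w : FreeGroup (Fin m)) :
    pre G s (ph G m w) = ph G n (FreeGroup.map s w) :=
  DFunLike.congr_fun (show (pre G s).comp (ph G m) = (ph G n).comp (FreeGroup.map s) by
    ext i ω; simp [pre, ph]) w

def sm {m n : ℕ} (s : Fin m → Fin n) : FF G m →* FF G n :=
  ((pre G s).comp (FF G m).subtype).codRestrict _ (by
    rintro ⟨_, w, rfl⟩
    exact ⟨_, (pre_ph G s w).symm⟩)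

lemma sm_surj {m n : ℕ} (s : Fin m → Fin n) (t : Fin n → Fin m) (h : ∀ a, s (t a) = a) :
    Surjective (sm G s) := by
  rintro ⟨_, w, rfl⟩
  refine ⟨⟨_, FreeGroup.map t w, rfl⟩, Subtype.ext ((pre_ph G s _).trans ?_)⟩
  rw [FreeGroup.map.comp, show s ∘ t = id from funext h, FreeGroup.map.id]

def VV : Cl := fun X _ => Finite X ∧ ∀ n (ψ : FreeGroup (Fin n) →* X), (ph G n).ker ≤ ψ.ker

lemma phi_VV : Phi (VV G) := by
  refine ⟨fun _ _ h => h.1, ?_, ?_⟩
  · rintro X Y _ _ f hf ⟨_, h⟩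
    refine ⟨Finite.of_surjective f hf, fun n ψ w hw => ?_⟩
    choose a ha using fun i => hf (ψ (FreeGroup.of i))
    have : ψ = f.comp (FreeGroup.lift a) := by ext i; simp [ha]
    have e : FreeGroup.lift a w = 1 := h n _ hw
    rw [this, MonoidHom.mem_ker, MonoidHom.comp_apply, e, map_one]
  · rintro X _ N1 N2 _ _ hb ⟨f1, h1⟩ ⟨f2, h2⟩
    refine ⟨phi_fin.2.2 X N1 N2 hb f1 f2, fun n ψ w hw => ?_⟩
    have : ψ w ∈ N1 ⊓ N2 :=
      ⟨(QuotientGroup.eq_one_iff _).1 (h1 n ((QuotientGroup.mk' N1).comp ψ) hw),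
        (QuotientGroup.eq_one_iff _).1 (h2 n ((QuotientGroup.mk' N2).comp ψ) hw)⟩
    rwa [hb] at this

lemma VV_self [Finite G] : VV G G := by
  refine ⟨inferInstance, fun n ψ w hw => ?_⟩
  have : ψ = (Pi.evalMonoidHom _ fun i => ψ (FreeGroup.of i)).comp (ph G n) := by
    ext i; simp [ph]
  have e : ph G n w = 1 := hw
  rw [this, MonoidHom.mem_ker, MonoidHom.comp_apply, e, map_one]

lemma VV_quot {X : Type} [Group X] (h : VV G X) : ∃ n, ∃ f : FF G n →* X, Surjective f := by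
  have := h.1
  obtain ⟨n, ⟨e⟩⟩ := Finite.exists_equiv_fin X
  exact ⟨n, (QuotientGroup.lift _ (FreeGroup.lift e.symm) (h.2 n (FreeGroup.lift e.symm))).comp
    (QuotientGroup.quotientKerEquivRange (ph G n)).symm.toMonoidHom,
    (lift_surj _ _ (h.2 n (FreeGroup.lift e.symm)) fun x => ⟨FreeGroup.of (e x), by simp⟩).comp (MulEquiv.surjective _)⟩

variable {G} [LinearOrder G]

def van {n : ℕ} (ω : Fin n → G) : Subgroup (FF G n) where
  carrier := {f | ∀ ω', toLex ω' < toLex ω → f.1 ω' = 1}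
  one_mem' := fun _ _ => rfl
  mul_mem' := fun ha hb ω' h => by simp [ha ω' h, hb ω' h]
  inv_mem' := fun ha ω' h => by simp [ha ω' h]

def LT {n : ℕ} (R : Subgroup (FF G n)) (ω : Fin n → G) : Subgroup G :=
  (R ⊓ van ω).map ((Pi.evalMonoidHom _ ω).comp (FF G n).subtype)

lemma LT_le [Finite G] {n : ℕ} {R R' : Subgroup (FF G n)} (h : R' ≤ R)
    (h2 : ∀ ω, LT R ω ≤ LT R' ω) : R ≤ R' := by
  have : Finite (Lex (Fin n → G)) := inferInstanceAs (Finite (Fin n → G))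
  have fin : ∀ f : FF G n, f = 1 ∨ ∃ ω, f ∈ van ω ∧ f.1 ω ≠ 1 := fun f => by
    by_cases hf : ∃ ω : Lex (Fin n → G), f.1 (ofLex ω) ≠ 1
    · obtain ⟨ω, a, b⟩ := (wellFounded_lt (α := Lex (Fin n → G))).has_min _ hf
      exact Or.inr ⟨ofLex ω, fun ω' hω => not_not.1 fun c => b (toLex ω') c hω, a⟩
    · push Not at hf
      exact Or.inl (Subtype.ext (funext fun ω => hf (toLex ω)))
  have key : ∀ ω : Lex (Fin n → G), ∀ f ∈ R, f ∈ van (ofLex ω) → f ∈ R' := fun ω => by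
    induction ω using (wellFounded_gt (α := Lex (Fin n → G))).induction with
    | _ ω ih =>
      intro f hf hv
      obtain ⟨f', hf', e⟩ := h2 _ ⟨f, ⟨hf, hv⟩, rfl⟩
      have e' : f'.1 (ofLex ω) = f.1 (ofLex ω) := e
      rw [show f = f * f'⁻¹ * f' by group]
      refine R'.mul_mem ?_ hf'.1
      rcases fin (f * f'⁻¹) with h1 | ⟨ω1, a, b⟩
      · rw [h1]; exact R'.one_mem
      refine ih (toLex ω1) ?_ _ (R.mul_mem hf (R.inv_mem (h hf'.1))) a
      by_contra hle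
      rcases (not_lt.1 hle).eq_or_lt with h3 | h3
      · exact b (by simp [show ω1 = ofLex ω from h3, e'])
      · exact b ((van _).mul_mem hv ((van _).inv_mem hf'.2) _ h3)
  intro f hf
  rcases fin f with h1 | ⟨ω, a, -⟩
  · rw [h1]; exact R'.one_mem
  · exact key (toLex ω) f hf a

lemma LT_map {m n : ℕ} (s : Fin m → Fin n) (t : Fin n → Fin m) (t1 : StrictMono t)
    (h1 : ∀ a, s (t a) = a) (h2 : ∀ a, t (s a) ≤ a) (R : Subgroup (FF G m)) (ω : Fin n → G) :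
    LT R (ω ∘ s) ≤ LT (R.map (sm G s)) ω := by
  rintro _ ⟨f, hf, rfl⟩
  refine ⟨sm G s f, ⟨Subgroup.mem_map_of_mem _ hf.1, fun ω' ⟨i, a, b⟩ => hf.2 (ω' ∘ s)
    ⟨t i, fun j hj => a (s j) (t1.lt_iff_lt.1 ((h2 j).trans_lt hj)), ?_⟩⟩, rfl⟩
  show ω' (s (t i)) < ω (s (t i))
  rw [h1]; exact b

def fm (K : Type) [Group K] [Finite K] : NF where
  mem := fun H _ => ∀ E : Cl, Phi E → E K → E H
  ok := ⟨fun _ _ h => h _ phi_fin (inferInstance : Finite K),
    fun X Y _ _ f hf h K hK hG => hK.2.1 X Y f hf (h K hK hG),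
    fun X _ N1 N2 _ _ hb x1 x2 K hK hG => hK.2.2 X N1 N2 hb (x1 K hK hG) (x2 K hK hG)⟩
  ne := fun _ h1 h2 => h1.triv h2

theorem main (G : Type) [Group G] [Finite G] (H : NF) (h : ∀ (X : Type) [Group X], H.mem X → VV G X) :
    ∃ (K : Type) (_ : Group K) (_ : Finite K), H.mem K ∧ Le H (fm K) := by
  obtain ⟨_, -⟩ := exists_wellFoundedLT G
  let K : ℕ → Type := fun j => ∀ n : Fin (j + 1), FF G n ⧸ res H.mem (FF G n)
  have hK : ∀ j, H.mem (K j) := fun j => mem_of_res_bot H (eq_bot_iff.2 fun x hx => funext fun n =>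
    MonoidHom.mem_ker.1 (res_le H (Pi.evalMonoidHom _ n) (surjective_eval n) (res_mem H _) hx))
  have le1 : ∀ j n, res H.mem (FF G n) ≤ res (fm (K j)).mem (FF G n) := fun j n => by
    have := res_le H _ (QuotientGroup.mk'_surjective _) (res_mem (fm (K j)) (FF G n) _ H.ok (hK j))
    rwa [QuotientGroup.ker_mk'] at this
  have le2 : ∀ j n, n ≤ j → res (fm (K j)).mem (FF G n) ≤ res H.mem (FF G n) := fun j n hn => by
    have := res_le (fm (K j)) (QuotientGroup.mk' (res H.mem (FF G n))) (QuotientGroup.mk'_surjective _)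
      fun E h1 h2 => h1.2.1 _ _ (Pi.evalMonoidHom _ (⟨n, by omega⟩ : Fin (j + 1)))
        (surjective_eval _) h2
    rwa [QuotientGroup.ker_mk'] at this
  by_contra hc
  have key : ∀ j, ∃ n, ∃ ω : Fin n → G,
      ¬ LT (res (fm (K j)).mem (FF G n)) ω ≤ LT (res H.mem (FF G n)) ω := fun j => by
    by_contra h2
    push Not at h2
    refine hc ⟨K j, _, inferInstance, hK j, fun X _ hX => ?_⟩
    obtain ⟨n, f, hf⟩ := VV_quot G (h X hX)
    exact mem_of_res_le _ f hf ((LT_le (le1 j n) (h2 n)).trans (res_le H f hf hX))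
  choose n ω hω using key
  obtain ⟨i, hi⟩ := wqo n ω fun j => LT (res H.mem (FF G (n j))) (ω j)
  obtain ⟨j, a, b, s, t, c1, c2, c3, c4⟩ := hi (n i)
  refine hω j ?_
  rw [← b, c4]
  refine (LT_map s t c1 c2 c3 _ _).trans ?_
  rw [res_map _ _ (sm_surj G s t c2)]
  exact Subgroup.map_mono (inf_le_inf_right _ (le2 j _ a))

end Pool.Agent.H.MP_7ab5f9_al
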